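import Pool.Agent.Helper20.QD.St5

set_option autoImplicit false

open Filter Topology Matrix Set Metric MeasureTheory
open scoped ComplexConjugate ComplexOrder

namespace Pool.Agent.Helper2.QD

open Pool.Agent.Helper35.PM Pool.Agent.Helper20.QD

theorem hSID (hTJ2 : StTJ2) (hTIN : StTIN) (hRMT : StRMT) (hSHO : StSHO) (hSFU : StSFU)
    (hSEX : StSEX) : StSID := by
  intro Γ _ ρ hρ p hp
  obtain ⟨β, hβ⟩ := hρ.jordan
  obtain ⟨ho, hb, hc, -⟩ := hTJ2 β (Lam ρ) hβ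
  obtain ⟨f, hf, hi, him, h0⟩ := hRMT (inn (Lam ρ)) p ho hb hc hp (hTIN β (Lam ρ) hβ).2
  obtain ⟨σ, hsu, heq⟩ := hSHO Γ ρ f hρ hf hi him
  have hF : Fuch σ := hSFU Γ ρ σ f hρ hf hi him hsu heq
  obtain ⟨F, hFf, hone⟩ := hSEX Γ ρ σ f hρ hf hi him hF heq
  refine ⟨σ, F, hone, ?_⟩
  rw [hFf 0 (by simp), h0]

end Pool.Agent.Helper2.QD
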