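import Pool.Agent.Helper58.QD.StM

/-!
# Project QD, module ITM: Moser iteration
-/

set_option autoImplicit false

open Set Filter Topology MeasureTheory
open Helper62.LH Helper62.DSH Helper58.QD
open scoped ContDiff ENNReal

namespace Pool.Agent.Helper2.QD

/-! ### real numbers -/

/-- absorption -/
private theorem absorb {n : ℕ} {t0 B M : ℝ} {f : ℝ → ℝ} (hB : 0 ≤ B)
    (hM : ∀ s, 0 < s → s < t0 → f s ≤ M) (hM0 : 0 ≤ M)
    (h : ∀ s, 0 < s → s < t0 → f s ≤ (1 / 2 ^ (n + 1)) * f ((s + t0) / 2) + 2 ^ n * B / (t0 - s) ^ n)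
    {s : ℝ} (hs : 0 < s) (hst : s < t0) : f s * (t0 - s) ^ n ≤ 2 ^ (n + 1) * B := by
  have key : ∀ N : ℕ, ∀ s, 0 < s → s < t0 → f s * (t0 - s) ^ n ≤ (1 / 2) ^ N * (M * t0 ^ n) + 2 ^ (n + 1) * B := by
    intro N
    induction N with
    | zero =>
      intro s hs hst
      have h1 : (t0 - s) ^ n ≤ t0 ^ n := pow_le_pow_left₀ (by linarith) (by linarith) n
      have h2 : f s * (t0 - s) ^ n ≤ M * t0 ^ n := by
        have h3 : 0 ≤ (t0 - s) ^ n := pow_nonneg (by linarith) n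
        exact (mul_le_mul_of_nonneg_right (hM s hs hst) h3).trans (mul_le_mul_of_nonneg_left h1 hM0)
      have h4 : 0 ≤ 2 ^ (n + 1) * B := by positivity
      rw [pow_zero, one_mul]
      linarith
    | succ N ih =>
      intro s hs hst
      have hp : 0 < (t0 - s) ^ n := pow_pos (by linarith) n
      have i1 := ih ((s + t0) / 2) (by linarith) (by linarith)
      have e1 : t0 - (s + t0) / 2 = (t0 - s) / 2 := by ring
      rw [e1, div_pow] at i1
      have i2 := mul_le_mul_of_nonneg_right (h s hs hst) hp.le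
      have e2 : ((1 / 2 ^ (n + 1)) * f ((s + t0) / 2) + 2 ^ n * B / (t0 - s) ^ n) * (t0 - s) ^ n =
          (1 / 2) * (f ((s + t0) / 2) * ((t0 - s) ^ n / 2 ^ n)) + 2 ^ n * B := by
        field_simp
        ring
      rw [e2] at i2
      have e3 : (1 / 2 : ℝ) ^ (N + 1) * (M * t0 ^ n) + 2 ^ (n + 1) * B =
          (1 / 2) * ((1 / 2) ^ N * (M * t0 ^ n) + 2 ^ (n + 1) * B) + 2 ^ n * B := by
        rw [pow_succ, pow_succ]; ring
      rw [e3]
      linarith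
  have h1 : Tendsto (fun N : ℕ => (1 / 2 : ℝ) ^ N * (M * t0 ^ n) + 2 ^ (n + 1) * B) atTop
      (𝓝 (0 * (M * t0 ^ n) + 2 ^ (n + 1) * B)) :=
    ((tendsto_pow_atTop_nhds_zero_of_lt_one (by norm_num) (by norm_num)).mul_const _).add_const _
  rw [zero_mul, zero_add] at h1
  exact ge_of_tendsto' h1 fun N => key N s hs hst

/-- iteration -/
private theorem iterate {b : ℕ → ℝ} {D : ℝ} (hD : 1 ≤ D) (hb : ∀ k, 0 ≤ b k)
    (h : ∀ k, b (k + 1) ≤ D ^ (k + 1) * b k ^ 2) (k : ℕ) : b k ≤ (b 0 * D ^ 2) ^ 2 ^ k := by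
  have hD0 : 0 ≤ D := by linarith
  have key : ∀ k, b k * D ^ (k + 2) ≤ (b 0 * D ^ 2) ^ 2 ^ k := by
    intro k
    induction k with
    | zero => simp
    | succ k ih =>
      have h1 : b (k + 1) * D ^ (k + 1 + 2) ≤ (D ^ (k + 1) * b k ^ 2) * D ^ (k + 1 + 2) :=
        mul_le_mul_of_nonneg_right (h k) (pow_nonneg hD0 _)
      have e1 : (D ^ (k + 1) * b k ^ 2) * D ^ (k + 1 + 2) = (b k * D ^ (k + 2)) ^ 2 := by ring
      rw [e1] at h1
      have h2 : (b k * D ^ (k + 2)) ^ 2 ≤ ((b 0 * D ^ 2) ^ 2 ^ k) ^ 2 :=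
        pow_le_pow_left₀ (mul_nonneg (hb k) (pow_nonneg hD0 _)) ih 2
      refine h1.trans (h2.trans (le_of_eq ?_))
      rw [← pow_mul, ← pow_succ]
  have h3 : b k ≤ b k * D ^ (k + 2) := le_mul_of_one_le_right (hb k) (one_le_pow₀ hD)
  exact h3.trans (key k)

/-! ### the truncation -/

private theorem tau_nonneg {T s : ℝ} (hT : 0 < T) (hs : 0 ≤ s) : 0 ≤ tau T s := by
  unfold tau; positivity

private theorem tau_le {T s : ℝ} (hT : 0 < T) (hs : 0 ≤ s) : tau T s ≤ s := by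
  unfold tau
  rw [div_le_iff₀ (by positivity)]
  nlinarith

private theorem tau_le_T {T s : ℝ} (hT : 0 < T) (hs : 0 ≤ s) : tau T s ≤ T := by
  unfold tau
  rw [div_le_iff₀ (by positivity)]
  nlinarith

private theorem tau_meas (T : ℝ) : Measurable (tau T) := by
  unfold tau
  fun_prop

/-- the limit of the truncation -/
private theorem le_of_tau {s β : ℝ} (hs : 0 ≤ s) (h : ∀ T : ℕ, tau ((T : ℝ) + 1) s ≤ β) : s ≤ β := by
  by_contra hc
  push Not at hc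
  have hβ : 0 ≤ β := (tau_nonneg (by positivity) hs).trans (h 0)
  obtain ⟨T, hT⟩ := exists_nat_gt (β * s / (s - β))
  have h1 := h T
  unfold tau at h1
  rw [div_le_iff₀ (by positivity)] at h1
  rw [div_lt_iff₀ (by linarith)] at hT
  nlinarith

/-! ### the measure argument -/

section

variable {X : Type*} [MeasurableSpace X] {μ : Measure X}

/-- a family of bounds of the moments gives a pointwise bound -/
private theorem ae_le_of_moments {S0 : Set X} (hS0 : MeasurableSet S0) {u V : X → ℝ} {β v : ℝ}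
    (hu : AEMeasurable u μ) (hu0 : ∀ y, 0 ≤ u y) (hV : ∀ y, 0 < V y) (hVi : IntegrableOn V S0 μ) (hβ : 0 ≤ β)
    (G : ℕ → X → ℝ) (hG : ∀ k, IntegrableOn (G k) S0 μ) (hG1 : ∀ k y, u y ^ 2 ^ k * V y ≤ G k y)
    (hG2 : ∀ k, ∫ y in S0, G k y ∂μ ≤ v * β ^ 2 ^ k) :
    ∀ᵐ y ∂(μ.restrict S0), u y ≤ β := by
  have key : ∀ lam : ℝ, β < lam → ∀ᵐ y ∂(μ.restrict S0), u y < lam := by
    intro lam hlam
    have hlam0 : 0 < lam := hβ.trans_lt hlam
    set S := S0 ∩ {y | lam ≤ u y} with hS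
    have hSm : NullMeasurableSet S μ := hS0.nullMeasurableSet.inter (nullMeasurableSet_le aemeasurable_const hu)
    have hVS : IntegrableOn V S μ := hVi.mono_set inter_subset_left
    have h1 : ∀ k : ℕ, lam ^ 2 ^ k * ∫ y in S, V y ∂μ ≤ v * β ^ 2 ^ k := by
      intro k
      refine le_trans ?_ (hG2 k)
      rw [← integral_const_mul]
      have hGS : IntegrableOn (G k) S μ := (hG k).mono_set inter_subset_left
      have a1 : ∫ y in S, lam ^ 2 ^ k * V y ∂μ ≤ ∫ y in S, G k y ∂μ := by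
        refine setIntegral_mono_on₀ (hVS.const_mul _) hGS hSm fun y hy => ?_
        refine le_trans ?_ (hG1 k y)
        exact mul_le_mul_of_nonneg_right (pow_le_pow_left₀ hlam0.le hy.2 _) (hV y).le
      refine a1.trans (setIntegral_mono_set (hG k) ?_ inter_subset_left.eventuallyLE)
      refine Eventually.of_forall fun y => ?_
      exact (mul_nonneg (pow_nonneg (hu0 y) _) (hV y).le).trans (hG1 k y)
    have h2 : ∫ y in S, V y ∂μ ≤ 0 := by
      have h3 : ∀ k : ℕ, ∫ y in S, V y ∂μ ≤ v * (β / lam) ^ 2 ^ k := by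
        intro k
        have := h1 k
        rw [div_pow, mul_div_assoc', le_div_iff₀ (pow_pos hlam0 _)]
        linarith
      have h4 : Tendsto (fun k : ℕ => v * (β / lam) ^ 2 ^ k) atTop (𝓝 (v * 0)) := by
        refine Tendsto.const_mul _ ?_
        have t1 := tendsto_pow_atTop_nhds_zero_of_lt_one (r := β / lam) (by positivity) (by rwa [div_lt_one hlam0])
        exact t1.comp (tendsto_pow_atTop_atTop_of_one_lt (r := 2) (by norm_num))
      rw [mul_zero] at h4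
      exact ge_of_tendsto' h4 h3
    have h5 : ∫ y in S, V y ∂μ = 0 :=
      le_antisymm h2 (integral_nonneg fun y => (hV y).le)
    have h6 := (setIntegral_eq_zero_iff_of_nonneg_ae (Eventually.of_forall fun y => (hV y).le) hVS).1 h5
    have h7 : μ S = 0 := by
      have h8 : ∀ᵐ y ∂(μ.restrict S), False := h6.mono fun y hy => (hV y).ne' hy
      have h9 := ae_iff.1 h8
      simpa using h9
    rw [ae_iff, Measure.restrict_apply' hS0]
    have h10 : {y | ¬ u y < lam} ∩ S0 = S := by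
      ext y
      simp only [not_lt, mem_inter_iff, mem_ofPred_eq, hS]
      tauto
    rw [h10]
    exact h7
  have h11 : ∀ᵐ y ∂(μ.restrict S0), ∀ m : ℕ, u y < β + 1 / ((m : ℝ) + 1) :=
    ae_all_iff.2 fun m => key _ (by
      have : (0 : ℝ) < 1 / ((m : ℝ) + 1) := by positivity
      linarith)
  filter_upwards [h11] with y hy
  by_contra hc
  push Not at hc
  obtain ⟨m, hm⟩ := exists_nat_one_div_lt (show 0 < u y - β by linarith)
  have := hy m
  linarith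

/-- the moments -/
private noncomputable def J (μ : Measure X) (B : ℝ → Set X) (V w : X → ℝ) (T : ℝ) (p : ℕ) (s : ℝ) : ℝ :=
  ∫ y in B s, tau T (w y) ^ (p - 1) * w y * V y ∂μ

variable {B : ℝ → Set X} {V w : X → ℝ} {ρ v K T : ℝ} {n : ℕ}

private theorem int_J (hw0 : ∀ y, 0 ≤ w y) (hV : ∀ y, 0 < V y) (hw : AEMeasurable w μ)
    (hwV : IntegrableOn (fun y => w y * V y) (B ρ) μ) (hT : 0 < T) (m : ℕ) :
    IntegrableOn (fun y => tau T (w y) ^ m * w y * V y) (B ρ) μ := by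
  refine Integrable.mono' (hwV.const_mul (T ^ m)) ?_ ?_
  · have h1 : AEStronglyMeasurable (fun y => tau T (w y) ^ m) (μ.restrict (B ρ)) :=
      (((tau_meas T).comp_aemeasurable hw).pow_const m).aestronglyMeasurable.restrict
    refine (h1.mul hwV.aestronglyMeasurable).congr (Eventually.of_forall fun y => ?_)
    show tau T (w y) ^ m * (w y * V y) = _
    ring
  · refine Eventually.of_forall fun y => ?_
    have h0 := tau_nonneg hT (hw0 y)
    have h1 := pow_le_pow_left₀ h0 (tau_le_T hT (hw0 y)) m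
    have h2 : 0 ≤ w y * V y := mul_nonneg (hw0 y) (hV y).le
    rw [Real.norm_eq_abs, abs_of_nonneg (mul_nonneg (mul_nonneg (pow_nonneg h0 m) (hw0 y)) (hV y).le), mul_assoc]
    exact mul_le_mul_of_nonneg_right h1 h2

private theorem J_nonneg (hw0 : ∀ y, 0 ≤ w y) (hV : ∀ y, 0 < V y) (hT : 0 < T) (p : ℕ) (s : ℝ) :
    0 ≤ J μ B V w T p s :=
  integral_nonneg fun y => mul_nonneg (mul_nonneg (pow_nonneg (tau_nonneg hT (hw0 y)) _) (hw0 y)) (hV y).le

private theorem J_mono (hB : ∀ s t, s ≤ t → B s ⊆ B t) (hw0 : ∀ y, 0 ≤ w y) (hV : ∀ y, 0 < V y)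
    (hw : AEMeasurable w μ) (hwV : IntegrableOn (fun y => w y * V y) (B ρ) μ) (hT : 0 < T) (p : ℕ) {s t : ℝ}
    (hst : s ≤ t) (ht : t ≤ ρ) : J μ B V w T p s ≤ J μ B V w T p t :=
  setIntegral_mono_set ((int_J hw0 hV hw hwV hT (p - 1)).mono_set (hB _ _ ht))
    (Eventually.of_forall fun y => mul_nonneg (mul_nonneg (pow_nonneg (tau_nonneg hT (hw0 y)) _) (hw0 y)) (hV y).le)
    (hB _ _ hst).eventuallyLE

/-- the combined inequality -/
private def CmbA (μ : Measure X) (B : ℝ → Set X) (V w : X → ℝ) (n : ℕ) (ρ v K : ℝ) : Prop :=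
  ∀ (T : ℝ) (p : ℕ) (s t r : ℝ), 0 < T → 1 ≤ p → 0 < s → s < t → t ≤ ρ → 0 < r → r ≤ ρ →
    J μ B V w T (2 * p) s ≤ K * r ^ 2 * p / (t - s) ^ 2 * J μ B V w T (2 * p) t +
      K * (ρ / r) ^ n / v * J μ B V w T p t ^ 2

private theorem step1 (hw0 : ∀ y, 0 ≤ w y) (hV : ∀ y, 0 < V y) (hK : 1 ≤ K)
    (hC : CmbA μ B V w n ρ v K) (hT : 0 < T) {p : ℕ} (hp : 1 ≤ p) {s t : ℝ} (hs : 0 < s) (hst : s < t) (ht : t ≤ ρ) :
    J μ B V w T (2 * p) s ≤ (1 / 2 ^ (n + 1)) * J μ B V w T (2 * p) t +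
      K * (K * p * 2 ^ (n + 1)) ^ n * (ρ / (t - s)) ^ n / v * J μ B V w T p t ^ 2 := by
  have hpr : (1 : ℝ) ≤ p := by exact_mod_cast hp
  set q : ℝ := 2 ^ (n + 1) with hq
  have hq1 : (1 : ℝ) ≤ q := one_le_pow₀ (by norm_num)
  have hKp : 1 ≤ K * p := one_le_mul_of_one_le_of_one_le hK hpr
  have hKpq : 1 ≤ K * p * q := one_le_mul_of_one_le_of_one_le hKp hq1
  have hts : 0 < t - s := by linarith
  have hρ : 0 < ρ := by linarith
  have h := hC T p s t ((t - s) / (K * p * q)) hT hp hs hst ht (by positivity)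
    ((div_le_self hts.le hKpq).trans (by linarith))
  have e1 : K * ((t - s) / (K * p * q)) ^ 2 * p / (t - s) ^ 2 = 1 / (K * p * q) * (1 / q) := by
    field_simp
  have e2 : ρ / ((t - s) / (K * p * q)) = K * p * q * (ρ / (t - s)) := by
    field_simp
  rw [e1, e2, mul_pow] at h
  have h1 : 1 / (K * p * q) * (1 / q) * J μ B V w T (2 * p) t ≤ (1 / q) * J μ B V w T (2 * p) t := by
    refine mul_le_mul_of_nonneg_right ?_ (J_nonneg hw0 hV hT _ _)
    have h2 : 1 / (K * p * q) ≤ 1 := by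
      rw [div_le_one (by positivity)]
      exact hKpq
    exact mul_le_of_le_one_left (by positivity) h2
  have e3 : K * ((K * p * q) ^ n * (ρ / (t - s)) ^ n) / v = K * (K * p * q) ^ n * (ρ / (t - s)) ^ n / v := by ring
  rw [e3] at h
  linarith

private theorem step2 (hB : ∀ s t, s ≤ t → B s ⊆ B t) (hw0 : ∀ y, 0 ≤ w y) (hV : ∀ y, 0 < V y)
    (hw : AEMeasurable w μ) (hwV : IntegrableOn (fun y => w y * V y) (B ρ) μ) (hK : 1 ≤ K) (hv : 0 < v)
    (hC : CmbA μ B V w n ρ v K) (hT : 0 < T) {p : ℕ} (hp : 1 ≤ p) {s t : ℝ} (hs : 0 < s) (hst : s < t) (ht : t ≤ ρ) :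
    J μ B V w T (2 * p) s * (t - s) ^ n ≤
      2 ^ (n + 1) * (K * (K * p * 2 ^ (n + 1)) ^ n * ρ ^ n / v * J μ B V w T p t ^ 2) := by
  have hρ : 0 < ρ := by linarith
  have hK0 : 0 < K := by linarith
  refine absorb (n := n) (t0 := t) (M := J μ B V w T (2 * p) t) (f := J μ B V w T (2 * p)) (by positivity)
    (fun a _ h2 => J_mono hB hw0 hV hw hwV hT _ h2.le ht) (J_nonneg hw0 hV hT _ _) (fun a h1 h2 => ?_) hs hst
  have h := step1 hw0 hV hK hC hT hp h1 (show a < (a + t) / 2 by linarith) (show (a + t) / 2 ≤ ρ by linarith)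
  have m1 := J_mono hB hw0 hV hw hwV hT p (show (a + t) / 2 ≤ t by linarith) ht
  have m2 : J μ B V w T p ((a + t) / 2) ^ 2 ≤ J μ B V w T p t ^ 2 :=
    pow_le_pow_left₀ (J_nonneg hw0 hV hT _ _) m1 2
  have hta : 0 < t - a := by linarith
  have e1 : (a + t) / 2 - a = (t - a) / 2 := by ring
  rw [e1] at h
  refine h.trans (add_le_add_right ?_ _)
  have e2 : 2 ^ n * (K * (K * p * 2 ^ (n + 1)) ^ n * ρ ^ n / v * J μ B V w T p t ^ 2) / (t - a) ^ n =
      K * (K * p * 2 ^ (n + 1)) ^ n * (ρ / ((t - a) / 2)) ^ n / v * J μ B V w T p t ^ 2 := by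
    have : ρ / ((t - a) / 2) = 2 * ρ / (t - a) := by field_simp
    rw [this, div_pow, mul_pow]
    ring
  rw [e2]
  exact mul_le_mul_of_nonneg_left m2 (by positivity)

/-- the radii -/
private noncomputable def sk (ρ : ℝ) (k : ℕ) : ℝ := ρ * (1 / 2 + (1 / 2) ^ (k + 1))

private theorem sk_zero (ρ : ℝ) : sk ρ 0 = ρ := by unfold sk; ring
private theorem sk_sub (ρ : ℝ) (k : ℕ) : sk ρ k - sk ρ (k + 1) = ρ * (1 / 2) ^ (k + 2) := by unfold sk; ring
private theorem sk_half {ρ : ℝ} (hρ : 0 < ρ) (k : ℕ) : ρ / 2 ≤ sk ρ k := by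
  unfold sk
  have : (0 : ℝ) ≤ ρ * (1 / 2) ^ (k + 1) := by positivity
  linarith
private theorem sk_le {ρ : ℝ} (hρ : 0 < ρ) (k : ℕ) : sk ρ k ≤ ρ := by
  unfold sk
  have h1 : (1 / 2 : ℝ) ^ (k + 1) ≤ 1 / 2 := by
    rw [pow_succ]
    have : (1 / 2 : ℝ) ^ k ≤ 1 := pow_le_one₀ (by norm_num) (by norm_num)
    linarith
  nlinarith

/-- the constant -/
private noncomputable def DD (n : ℕ) (K : ℝ) : ℝ := 2 ^ (n + 1) * K * (4 * K * 2 ^ (n + 1)) ^ n

private theorem DD_ge {n : ℕ} {K : ℝ} (hK : 1 ≤ K) : 1 ≤ DD n K ∧ (4 : ℝ) ^ n ≤ DD n K := by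
  have h1 : (1 : ℝ) ≤ 2 ^ (n + 1) := one_le_pow₀ (by norm_num)
  have h2 : (1 : ℝ) ≤ 2 ^ (n + 1) * K := one_le_mul_of_one_le_of_one_le h1 hK
  have h3 : (4 : ℝ) ≤ 4 * K * 2 ^ (n + 1) := by nlinarith
  have h4 : (4 : ℝ) ^ n ≤ (4 * K * 2 ^ (n + 1)) ^ n := pow_le_pow_left₀ (by norm_num) h3 n
  have h5 : (1 : ℝ) ≤ 4 ^ n := one_le_pow₀ (by norm_num)
  have h6 : (4 * K * 2 ^ (n + 1)) ^ n ≤ DD n K := by
    unfold DD
    exact le_mul_of_one_le_left (by linarith) h2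
  exact ⟨by linarith, by linarith⟩

private theorem step3 (hB : ∀ s t, s ≤ t → B s ⊆ B t) (hw0 : ∀ y, 0 ≤ w y) (hV : ∀ y, 0 < V y)
    (hw : AEMeasurable w μ) (hρ : 0 < ρ) (hwV : IntegrableOn (fun y => w y * V y) (B ρ) μ) (hK : 1 ≤ K) (hv : 0 < v)
    (hC : CmbA μ B V w n ρ v K) (hT : 0 < T) (k : ℕ) :
    J μ B V w T (2 ^ (k + 1)) (sk ρ (k + 1)) / v ≤ DD n K ^ (k + 1) * (J μ B V w T (2 ^ k) (sk ρ k) / v) ^ 2 := by
  have hK0 : 0 < K := by linarith
  have h := step2 hB hw0 hV hw hwV hK hv hC hT (p := 2 ^ k) (s := sk ρ (k + 1)) (t := sk ρ k) (Nat.one_le_two_pow)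
    ((show 0 < ρ / 2 by linarith).trans_le (sk_half hρ _)) (by
      have := sk_sub ρ k
      have : (0 : ℝ) < ρ * (1 / 2) ^ (k + 2) := by positivity
      linarith) (sk_le hρ _)
  rw [sk_sub, ← pow_succ'] at h
  set Y := J μ B V w T (2 ^ (k + 1)) (sk ρ (k + 1)) with hY
  set Z := J μ B V w T (2 ^ k) (sk ρ k) with hZ
  push_cast at h
  have e1 : 2 ^ (n + 1) * (K * (K * 2 ^ k * 2 ^ (n + 1)) ^ n * ρ ^ n / v * Z ^ 2) =
      (DD n K * (4 ^ n) ^ k * (Z / v) ^ 2 * v) * (ρ * (1 / 2) ^ (k + 2)) ^ n := by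
    unfold DD
    have p2 : ((1 / 2 : ℝ) ^ (k + 2)) ^ n * (4 : ℝ) ^ n * (2 ^ k) ^ n = 1 := by
      have p4 : ((1 / 2 : ℝ) ^ (k + 2)) * 4 * 2 ^ k = 1 := by
        rw [pow_add, div_pow, one_pow]
        field_simp
        norm_num
      rw [← mul_pow, ← mul_pow, p4, one_pow]
    have p3 : ((4 : ℝ) ^ n) ^ k = (2 ^ k) ^ n * (2 ^ k) ^ n := by
      rw [← mul_pow, ← mul_pow, ← pow_mul, mul_comm n k, pow_mul]
      norm_num
    rw [p3]
    have e4 : (2 : ℝ) ^ (n + 1) * K * (4 * K * 2 ^ (n + 1)) ^ n * ((2 ^ k) ^ n * (2 ^ k) ^ n) * (Z / v) ^ 2 * v *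
        (ρ * (1 / 2) ^ (k + 2)) ^ n = 2 ^ (n + 1) * K * (K * 2 ^ (n + 1)) ^ n * (2 ^ k) ^ n * (Z / v) ^ 2 * v * ρ ^ n *
        (((1 / 2 : ℝ) ^ (k + 2)) ^ n * (4 : ℝ) ^ n * (2 ^ k) ^ n) := by
      rw [mul_pow ρ, mul_assoc 4 K, mul_pow 4]
      ring
    rw [e4, p2, mul_one]
    have e5 : (K * 2 ^ k * 2 ^ (n + 1)) ^ n = (K * 2 ^ (n + 1)) ^ n * (2 ^ k) ^ n := by
      rw [← mul_pow]
      ring
    rw [e5]
    field_simp
  rw [e1] at h
  have hp : 0 < (ρ * (1 / 2) ^ (k + 2)) ^ n := by positivity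
  have h2 := le_of_mul_le_mul_right h hp
  rw [div_le_iff₀ hv]
  refine h2.trans (mul_le_mul_of_nonneg_right ?_ hv.le)
  refine mul_le_mul_of_nonneg_right ?_ (sq_nonneg _)
  obtain ⟨d1, d2⟩ := DD_ge (n := n) hK
  rw [pow_succ']
  exact mul_le_mul_of_nonneg_left (pow_le_pow_left₀ (by positivity) d2 k) (by linarith)

/-- **Moser iteration, abstract form** -/
private theorem moser (hB : ∀ s t, s ≤ t → B s ⊆ B t) (hBm : ∀ s, MeasurableSet (B s)) (hw0 : ∀ y, 0 ≤ w y)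
    (hV : ∀ y, 0 < V y) (hw : AEMeasurable w μ) (hρ : 0 < ρ) (hwV : IntegrableOn (fun y => w y * V y) (B ρ) μ)
    (hVi : IntegrableOn V (B ρ) μ) (hK : 1 ≤ K) (hv : 0 < v) (hC : CmbA μ B V w n ρ v K) :
    ∀ᵐ y ∂(μ.restrict (B (ρ / 2))), w y ≤ DD n K ^ 2 / v * ∫ z in B ρ, w z * V z ∂μ := by
  obtain ⟨d1, _⟩ := DD_ge (n := n) hK
  have key : ∀ T : ℕ, ∀ᵐ y ∂(μ.restrict (B (ρ / 2))), tau ((T : ℝ) + 1) (w y) ≤
      (J μ B V w ((T : ℝ) + 1) 1 ρ / v) * DD n K ^ 2 := by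
    intro T
    have hT : (0 : ℝ) < (T : ℝ) + 1 := by positivity
    have hb0 : ∀ k, 0 ≤ J μ B V w ((T : ℝ) + 1) (2 ^ k) (sk ρ k) / v := fun k =>
      div_nonneg (J_nonneg hw0 hV hT _ _) hv.le
    have hit := iterate (b := fun k => J μ B V w ((T : ℝ) + 1) (2 ^ k) (sk ρ k) / v) d1 hb0
      (fun k => step3 hB hw0 hV hw hρ hwV hK hv hC hT k)
    simp only [pow_zero, sk_zero] at hit
    have hβ : 0 ≤ (J μ B V w ((T : ℝ) + 1) 1 ρ / v) * DD n K ^ 2 :=
      mul_nonneg (div_nonneg (J_nonneg hw0 hV hT _ _) hv.le) (sq_nonneg _)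
    have hρ2 : ρ / 2 ≤ ρ := by linarith
    refine ae_le_of_moments (v := v) (hBm _) ((tau_meas _).comp_aemeasurable hw) (fun y => tau_nonneg hT (hw0 y)) hV
      (hVi.mono_set (hB _ _ hρ2)) hβ (fun k y => tau ((T : ℝ) + 1) (w y) ^ (2 ^ k - 1) * w y * V y)
      (fun k => (int_J hw0 hV hw hwV hT _).mono_set (hB _ _ hρ2)) (fun k y => ?_) (fun k => ?_)
    · refine mul_le_mul_of_nonneg_right ?_ (hV y).le
      have e : 2 ^ k = 2 ^ k - 1 + 1 := (Nat.sub_add_cancel Nat.one_le_two_pow).symm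
      show tau ((T : ℝ) + 1) (w y) ^ 2 ^ k ≤ _
      rw [e, pow_succ, Nat.add_sub_cancel]
      exact mul_le_mul_of_nonneg_left (tau_le hT (hw0 y)) (pow_nonneg (tau_nonneg hT (hw0 y)) _)
    · have h1 : ∫ y in B (ρ / 2), tau ((T : ℝ) + 1) (w y) ^ (2 ^ k - 1) * w y * V y ∂μ ≤
          J μ B V w ((T : ℝ) + 1) (2 ^ k) (sk ρ k) :=
        J_mono hB hw0 hV hw hwV hT _ (sk_half hρ k) (sk_le hρ k)
      have h2 := hit k
      rw [div_le_iff₀ hv] at h2
      rw [mul_comm v]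
      exact h1.trans h2
  have e : ∀ T : ℕ, (J μ B V w ((T : ℝ) + 1) 1 ρ / v) * DD n K ^ 2 = DD n K ^ 2 / v * ∫ z in B ρ, w z * V z ∂μ := by
    intro T
    unfold J
    simp only [Nat.sub_self, pow_zero, one_mul]
    ring
  filter_upwards [ae_all_iff.2 key] with y hy
  exact le_of_tau (hw0 y) fun T => (hy T).trans (le_of_eq (e T))

end

/-! ### the statement -/

theorem hItm (hDlv : StDlv) (hBal : SBal) : SItm := by
  intro n K hK
  refine ⟨DD n K ^ 2, ?_, ?_⟩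
  · have := (DD_ge (n := n) hK).1
    positivity
  intro g Γ hg hΓ hc x ρ w hρ hw0 hwm hwV hC
  obtain ⟨b1, b2, b3, b4, b5⟩ := hBal n g Γ hg hΓ hc x
  obtain ⟨v1, v2, _⟩ := hDlv n g Γ hg hΓ
  have hVi : IntegrableOn (fun y => vol g y) (Ba g x ρ) := by
    have h1 := b2 ρ
    unfold mg at h1
    rw [withDensity_apply _ (b1 ρ).measurableSet] at h1
    exact (lintegral_ofReal_ne_top_iff_integrable v1.continuous.aestronglyMeasurable
      (Eventually.of_forall fun y => (v2 y).le)).1 h1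
  refine moser (B := fun s => Ba g x s) (V := fun y => vol g y) (w := w) (μ := volume) (n := n) (K := K) (ρ := ρ)
    (v := vb g x ρ) (fun s t hst y hy => ?_) (fun s => (b1 s).measurableSet) hw0 v2 hwm.aemeasurable hρ hwV hVi hK
    (b3 ρ hρ) ?_
  · exact lt_of_lt_of_le hy hst
  · intro T p s t r h1 h2 h3 h4 h5 h6 h7
    exact hC T p s t r h1 h2 h3 h4 h5 h6 h7

end Pool.Agent.Helper2.QD
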